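import Pool.Agent.Lib.H3MT.Fin

/-!
# The exact vertex-degree threshold for perfect matchings in `k`-uniform hypergraphs

For every `k ≥ 3` and all sufficiently large `n` divisible by `k`,
`m_1(k,n) = C(n-1,k-1) - C(n-n/k,k-1) + 1`.

The proof (`Pool/Agent/Lib/H3MT/PROOF.md`): a sharp inequality for sums of independent identically distributed
nonnegative random variables, `P(X_1 + ... + X_{k-1} < k) ≥ (1 - 1/k)^(k-1)` if the mean is `1`, with
stability, proved by a Stein type certificate made of two incomplete gamma kernels; linear programming
duality with capacities; a rounding lemma (spread fractional matchings give integral ones); the absorbing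
method; the extremal case.
-/

namespace Pool.Agent.Results.MP_b96e21_co.ExactThreshold

/-- For every `k ≥ 3` there is `N₀` such that for all `n ≥ N₀` divisible by `k` the least `d` such that every
`k`-uniform hypergraph `H` on `n` vertices with minimum vertex degree at least `d` has a perfect matching is
`C(n-1,k-1) - C(n-n/k,k-1) + 1`. -/
theorem result (k : ℕ) (hk : 3 ≤ k) : ∃ N₀ : ℕ, ∀ n : ℕ, N₀ ≤ n → k ∣ n →
    IsLeast {d : ℕ | ∀ H : Finset (Finset (Fin n)), (∀ e ∈ H, e.card = k) →
      (∀ v, d ≤ (H.filter (fun e => v ∈ e)).card) →
      ∃ M ⊆ H, (M : Set (Finset (Fin n))).PairwiseDisjoint id ∧ M.biUnion id = Finset.univ}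
      ((n - 1).choose (k - 1) - (n - n / k).choose (k - 1) + 1) :=
  Pool.Agent.Lib.H3MT.final k hk

end Pool.Agent.Results.MP_b96e21_co.ExactThreshold
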